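import Pool.Agent.Helper681_win.Group

namespace Helper681

open Finset

section

variable {G : Type*} [AddCommGroup G] [Fintype G] {κ : Type*} [DecidableEq κ] (c : G → κ)

/-- indicator of equality -/
def ee (u v : κ) : ℤ := if u = v then 1 else 0

theorem ee_comm (u v : κ) : ee u v = ee v u := by
  unfold ee
  by_cases h : u = v
  · simp [h]
  · rw [if_neg h, if_neg (Ne.symm h)]

/-- number of monochromatic ordered pairs -/
def SS : ℤ := ∑ x : G, ∑ y : G, ee (c x) (c y)

/-- joint count of two coincidences -/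
def N4 (α β γ δ : ℤ) : ℤ :=
  ∑ x : G, ∑ d : G, ee (c (x + α • d)) (c (x + β • d)) * ee (c (x + γ • d)) (c (x + δ • d))

theorem N4_swap1 (α β γ δ : ℤ) : N4 c β α γ δ = N4 c α β γ δ := by
  unfold N4
  exact sum_congr rfl fun x _ => sum_congr rfl fun d _ => by rw [ee_comm]

theorem N4_swap2 (α β γ δ : ℤ) : N4 c α β δ γ = N4 c α β γ δ := by
  unfold N4
  exact sum_congr rfl fun x _ => sum_congr rfl fun d _ => by rw [ee_comm (c (x + δ • d))]

theorem N4_swap (α β γ δ : ℤ) : N4 c γ δ α β = N4 c α β γ δ := by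
  unfold N4
  exact sum_congr rfl fun x _ => sum_congr rfl fun d _ => by rw [mul_comm]

theorem sum_aff {M : Type*} [AddCommMonoid M] (F : G → G → M) (r s : ℤ)
    (hr : Function.Bijective fun d : G => r • d) :
    ∑ x : G, ∑ d : G, F (x + s • d) (r • d) = ∑ x : G, ∑ d : G, F x d := by
  calc ∑ x : G, ∑ d : G, F (x + s • d) (r • d)
      = ∑ d : G, ∑ x : G, F (x + s • d) (r • d) := sum_comm
    _ = ∑ d : G, ∑ x : G, F x (r • d) := by
        refine sum_congr rfl fun d _ => ?_
        exact Equiv.sum_comp (Equiv.addRight (s • d)) (fun x => F x (r • d))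
    _ = ∑ x : G, ∑ d : G, F x (r • d) := sum_comm
    _ = ∑ x : G, ∑ d : G, F x d := by
        refine sum_congr rfl fun x _ => ?_
        exact Function.Bijective.sum_comp hr (fun d => F x d)

theorem N4_aff (α β γ δ r s : ℤ) (hr : Function.Bijective fun d : G => r • d) :
    N4 c (r * α + s) (r * β + s) (r * γ + s) (r * δ + s) = N4 c α β γ δ := by
  rw [N4, N4, ← sum_aff (fun x d => ee (c (x + α • d)) (c (x + β • d)) *
    ee (c (x + γ • d)) (c (x + δ • d))) r s hr]
  refine sum_congr rfl fun x _ => sum_congr rfl fun d _ => ?_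
  have h : ∀ t : ℤ, x + (r * t + s) • d = x + s • d + t • r • d := by
    intro t
    rw [add_smul, ← mul_smul, mul_comm t r]
    abel
  rw [h, h, h, h]

theorem N2_eq (a i : ℤ) (hr : Function.Bijective fun d : G => (i - a) • d) :
    ∑ x : G, ∑ d : G, ee (c (x + a • d)) (c (x + i • d)) = SS c := by
  have h1 := sum_aff (fun x d => ee (c x) (c (x + d))) (i - a) a hr
  have h2 : SS c = ∑ x : G, ∑ d : G, ee (c x) (c (x + d)) := by
    unfold SS
    refine sum_congr rfl fun x _ => ?_
    exact (Equiv.sum_comp (Equiv.addLeft x) (fun y => ee (c x) (c y))).symm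
  rw [h2, ← h1]
  refine sum_congr rfl fun x _ => sum_congr rfl fun d _ => ?_
  rw [show x + a • d + (i - a) • d = x + i • d by rw [sub_smul]; abel]

/-- the window functional summed over all windows -/
theorem sum_TT (L : ℕ → ℕ → ℤ) (q : ℕ → ℕ → ℕ → ℕ → ℤ) (K : ℕ)
    (hr : ∀ r : ℕ, 0 < r → r < K → Function.Bijective fun d : G => (r : ℤ) • d) :
    ∑ x : G, ∑ d : G, TT L q K (fun i => c (x + i • d)) =
      (∑ i ∈ range K, ∑ a ∈ range i, L a i) * SS c +
      ∑ i ∈ range K, ∑ a ∈ range i, ∑ i' ∈ range i, ∑ a' ∈ range i',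
        q a' i' a i * N4 c a' i' a i := by
  have h1 : ∀ x d : G, TT L q K (fun i => c (x + i • d)) =
      ∑ i ∈ range K, ∑ a ∈ range i, (L a i * ee (c (x + (a : ℤ) • d)) (c (x + (i : ℤ) • d)) +
        ∑ i' ∈ range i, ∑ a' ∈ range i', q a' i' a i *
          (ee (c (x + (a' : ℤ) • d)) (c (x + (i' : ℤ) • d)) *
            ee (c (x + (a : ℤ) • d)) (c (x + (i : ℤ) • d)))) := by
    intro x d
    unfold TT
    refine sum_congr rfl fun i _ => sum_congr rfl fun a _ => ?_
    simp only [natCast_zsmul]
    by_cases h : c (x + a • d) = c (x + i • d)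
    · rw [if_pos h]
      simp only [ee, if_pos h, mul_one]
      congr 1
      refine sum_congr rfl fun i' _ => sum_congr rfl fun a' _ => ?_
      split_ifs <;> simp
    · rw [if_neg h]
      simp [ee, h]
  simp only [h1]
  have h2 : ∀ F : G → G → ℕ → ℕ → ℤ, ∑ x : G, ∑ d : G, ∑ i ∈ range K, ∑ a ∈ range i, F x d i a =
      ∑ i ∈ range K, ∑ a ∈ range i, ∑ x : G, ∑ d : G, F x d i a := by
    intro F
    calc ∑ x : G, ∑ d : G, ∑ i ∈ range K, ∑ a ∈ range i, F x d i a
        = ∑ x : G, ∑ i ∈ range K, ∑ a ∈ range i, ∑ d : G, F x d i a := by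
          refine sum_congr rfl fun x _ => ?_
          rw [sum_comm]
          refine sum_congr rfl fun i _ => ?_
          rw [sum_comm]
      _ = _ := by
          rw [sum_comm]
          refine sum_congr rfl fun i _ => ?_
          rw [sum_comm]
  rw [h2]
  rw [sum_mul, ← sum_add_distrib]
  refine sum_congr rfl fun i hi => ?_
  rw [sum_mul, ← sum_add_distrib]
  refine sum_congr rfl fun a ha => ?_
  have hai := mem_range.mp ha
  have hiK := mem_range.mp hi
  simp only [sum_add_distrib, ← mul_sum]
  congr 1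
  · rw [N2_eq]
    have := hr (i - a) (by omega) (by omega)
    rwa [Nat.cast_sub hai.le] at this
  · have h3 : ∀ F : G → G → ℕ → ℕ → ℤ, ∑ x : G, ∑ d : G, ∑ i' ∈ range i, ∑ a' ∈ range i',
        F x d i' a' = ∑ i' ∈ range i, ∑ a' ∈ range i', ∑ x : G, ∑ d : G, F x d i' a' := by
      intro F
      calc ∑ x : G, ∑ d : G, ∑ i' ∈ range i, ∑ a' ∈ range i', F x d i' a'
          = ∑ x : G, ∑ i' ∈ range i, ∑ a' ∈ range i', ∑ d : G, F x d i' a' := by
            refine sum_congr rfl fun x _ => ?_
            rw [sum_comm]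
            refine sum_congr rfl fun i _ => ?_
            rw [sum_comm]
        _ = _ := by
            rw [sum_comm]
            refine sum_congr rfl fun i _ => ?_
            rw [sum_comm]
    rw [h3]
    refine sum_congr rfl fun i' _ => sum_congr rfl fun a' _ => ?_
    rw [N4]
    simp only [mul_sum]

omit [AddCommGroup G] in
/-- the number of monochromatic pairs is bounded by the largest class -/
theorem SS_le [DecidableEq G] (m : ℕ)
    (h : ∀ k, (univ.filter fun x : G => c x = k).card ≤ m) :
    SS c ≤ (Fintype.card G : ℤ) * m := by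
  unfold SS
  calc ∑ x : G, ∑ y : G, ee (c x) (c y) ≤ ∑ _x : G, (m : ℤ) := by
        refine sum_le_sum fun x _ => ?_
        have h1 : ∑ y : G, ee (c x) (c y) = ((univ.filter fun y : G => c y = c x).card : ℤ) := by
          rw [Finset.card_filter]
          push_cast
          refine sum_congr rfl fun y _ => ?_
          rw [ee_comm, ee]
        rw [h1]
        exact_mod_cast h (c x)
    _ = _ := by simp

end

end Helper681
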