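import Pool.Agent.Helper681_win.Closed

namespace Helper681

open Finset

section
variable {κ : Type*} [DecidableEq κ] (g : ℕ → κ)

/-- number of values taken before `a` -/
def nu (a : ℕ) : ℕ := ((range a).image g).card

/-- first place where the value at `i` occurs -/
def fst1 (i : ℕ) : ℕ := Nat.find (p := fun a => g a = g i) ⟨i, rfl⟩

theorem fst1_spec (i : ℕ) : g (fst1 g i) = g i := Nat.find_spec (p := fun a => g a = g i) ⟨i, rfl⟩

theorem fst1_le (i : ℕ) {a : ℕ} (h : g a = g i) : fst1 g i ≤ a :=
  Nat.find_min' (p := fun a => g a = g i) ⟨i, rfl⟩ h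

theorem fst1_congr {i j : ℕ} (h : g i = g j) : fst1 g i = fst1 g j :=
  le_antisymm (fst1_le g i ((fst1_spec g j).trans h.symm)) (fst1_le g j ((fst1_spec g i).trans h))

theorem nu_mono {a b : ℕ} (h : a ≤ b) : nu g a ≤ nu g b :=
  card_le_card (image_subset_image (range_mono h))

theorem nu_succ (a : ℕ) : nu g (a + 1) = if fst1 g a = a then nu g a + 1 else nu g a := by
  unfold nu
  rw [range_add_one, image_insert]
  split_ifs with h
  · rw [card_insert_of_notMem]
    intro hm
    obtain ⟨b, hb, hb'⟩ := mem_image.mp hm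
    have := fst1_le g a hb'
    have := mem_range.mp hb
    omega
  · rw [insert_eq_of_mem]
    have h1 := fst1_le g a (rfl : g a = g a)
    exact mem_image.mpr ⟨fst1 g a, mem_range.mpr (lt_of_le_of_ne h1 h), fst1_spec g a⟩

/-- canonical labels -/
def canon (i : ℕ) : ℕ := nu g (fst1 g i)

theorem fst1_idem (i : ℕ) : fst1 g (fst1 g i) = fst1 g i := fst1_congr g (fst1_spec g i)

theorem canon_lt {i j : ℕ} (h : fst1 g i < fst1 g j) : canon g i < canon g j := by
  have h1 := nu_succ g (fst1 g i)
  rw [if_pos (fst1_idem g i)] at h1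
  have h2 := nu_mono g (show fst1 g i + 1 ≤ fst1 g j from h)
  unfold canon
  omega

theorem canon_iff (i j : ℕ) : canon g i = canon g j ↔ g i = g j := by
  constructor
  · intro h
    rcases lt_trichotomy (fst1 g i) (fst1 g j) with h1 | h1 | h1
    · have := canon_lt g h1; omega
    · rw [← fst1_spec g i, ← fst1_spec g j, h1]
    · have := canon_lt g h1; omega
  · intro h
    unfold canon
    rw [fst1_congr g h]

theorem nbs_canon (i : ℕ) : nbs (canon g) i = nu g i := by
  induction i with
  | zero => rfl
  | succ i ih =>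
    rw [nbs, nu_succ, ih]
    have hle := fst1_le g i (rfl : g i = g i)
    by_cases h : fst1 g i = i
    · have : canon g i = nu g i := by unfold canon; rw [h]
      rw [if_pos this, if_pos h]
    · have h1 := nu_succ g (fst1 g i)
      rw [if_pos (fst1_idem g i)] at h1
      have h2 := nu_mono g (show fst1 g i + 1 ≤ i by omega)
      have : canon g i ≠ nu g i := by unfold canon; omega
      rw [if_neg this, if_neg h]

theorem canon_le (i : ℕ) : canon g i ≤ nbs (canon g) i := by
  rw [nbs_canon]
  exact nu_mono g (fst1_le g i rfl)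

theorem nu_le (i : ℕ) : nu g i ≤ i := by
  calc nu g i ≤ (range i).card := card_image_le
    _ = i := card_range i

theorem canon_le_self (i : ℕ) : canon g i ≤ i := by
  have := canon_le g i
  rw [nbs_canon] at this
  exact this.trans (nu_le g i)

theorem TT_canon (L : ℕ → ℕ → ℤ) (q : ℕ → ℕ → ℕ → ℕ → ℤ) (K : ℕ) :
    TT L q K (canon g) = TT L q K g := by
  unfold TT
  simp only [canon_iff]

end

end Helper681
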