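
/-! A depth-first checker on canonically labelled windows, written with recursors so that the
kernel evaluates it quickly. All numbers are natural numbers; `W` packs twenty-bit fields. -/

namespace Helper681

/-- evaluate a natural number before continuing -/
noncomputable def forceN (n : Nat) (k : Nat → Bool) : Bool :=
  Nat.rec (motive := fun _ => Bool) (k 0) (fun m _ => k (Nat.succ m)) n

/-- add the selected fields of `w` to `acc`, the selected rows to `W`, and count them -/
noncomputable def sel (lab w t : Nat) (k : Nat → Nat → Nat → Bool) (rows : List (Nat × Nat × Nat)) :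
    Nat → Nat → Nat → Bool :=
  List.rec (motive := fun _ => Nat → Nat → Nat → Bool)
    k
    (fun r _ ih acc W c =>
      Bool.rec (motive := fun _ => Bool)
        (ih acc W c)
        (forceN (Nat.add acc (Nat.mod (Nat.shiftRight w r.2.1) 1048576)) fun acc' =>
          forceN (Nat.add W r.2.2) fun W' => ih acc' W' (Nat.succ c))
        (Nat.beq (Nat.mod (Nat.shiftRight lab r.1) 16) t)) rows

/-- the same at the last level, where no rows are needed -/
noncomputable def selL (lab w t B o1 off : Nat) (rows : List (Nat × Nat × Nat)) : Nat → Nat → Bool :=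
  List.rec (motive := fun _ => Nat → Nat → Bool)
    (fun acc c => Nat.ble (Nat.add acc B) (Nat.add off (Nat.mul c o1)))
    (fun r _ ih acc c =>
      Bool.rec (motive := fun _ => Bool)
        (ih acc c)
        (ih (Nat.add acc (Nat.mod (Nat.shiftRight w r.2.1) 1048576)) (Nat.succ c))
        (Nat.beq (Nat.mod (Nat.shiftRight lab r.1) 16) t)) rows

/-- the mask of the labels allowed by the forbidden quadruples with last point here -/
noncomputable def allowed (lab : Nat) (k : Nat → Bool) (ps : List (Nat × Nat × Nat)) : Nat → Bool :=
  List.rec (motive := fun _ => Nat → Bool) k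
    (fun p _ ih m =>
      forceN (Nat.mod (Nat.shiftRight lab p.1) 16) fun x =>
      forceN (Nat.mod (Nat.shiftRight lab p.2.1) 16) fun y =>
      Bool.rec (motive := fun _ => Bool)
      (forceN (Nat.mod (Nat.shiftRight lab p.2.2) 16) fun z =>
        (Bool.rec (motive := fun _ => Bool)
         (Bool.rec (motive := fun _ => Bool)
         (forceN (Nat.land m (Nat.lor (Nat.pow 2 x) (Nat.lor (Nat.pow 2 y) (Nat.pow 2 z)))) ih)
         (ih m) (Nat.beq y z)) (ih m) (Nat.beq x z))) (ih m) (Nat.beq x y)) ps

/-- run `step t` for all `t` below the bound that lie in the mask -/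
noncomputable def loop (step : Nat → Bool) (m : Nat) (t : Nat) : Bool :=
  Nat.rec (motive := fun _ => Bool)
    true
    (fun t ih => Bool.rec (motive := fun _ => Bool) ih
      (Bool.rec (motive := fun _ => Bool) false ih (step t)) (Nat.testBit m t)) t

/-- call `k` with the mask of allowed labels -/
noncomputable def withMask (lab nb : Nat) (ps : List (Nat × Nat × Nat)) (k : Nat → Bool) : Bool :=
  (fun m => Bool.rec (motive := fun _ => Bool) (allowed lab k ps m) (k m) (Nat.ble nb 2))
    (Nat.sub (Nat.pow 2 (Nat.succ nb)) 1)

/-- the last level -/
noncomputable def last (B U C : Nat) (d : List (Nat × Nat × Nat) × List (Nat × Nat × Nat))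
    (_i lab nb W n acc off : Nat) : Bool :=
  withMask lab nb d.1 fun m =>
    forceN (Nat.add U (Nat.mul C n)) fun o1 =>
    loop (fun t => selL lab W t B o1 off d.2 acc 0) m (Nat.succ nb)

/-- go on only when the labels so far have residue `j` modulo `M` -/
noncomputable def split (M j : Nat) (base : Nat → Nat → Nat → Nat → Nat → Nat → Nat → Bool)
    (i lab nb W n acc off : Nat) : Bool :=
  Bool.rec (motive := fun _ => Bool) true (base i lab nb W n acc off)
    (Nat.beq (Nat.mod lab M) j)

/-- all levels listed in `D`, then `base` -/
noncomputable def check (U C : Nat) (base : Nat → Nat → Nat → Nat → Nat → Nat → Nat → Bool)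
    (D : List (List (Nat × Nat × Nat) × List (Nat × Nat × Nat))) :
    Nat → Nat → Nat → Nat → Nat → Nat → Nat → Bool :=
  List.rec (motive := fun _ => Nat → Nat → Nat → Nat → Nat → Nat → Nat → Bool)
    base
    (fun d _ ih i lab nb W n acc off =>
      withMask lab nb d.1 fun m =>
        forceN (Nat.shiftRight W (Nat.mul 20 i)) fun W1 =>
        forceN (Nat.add U (Nat.mul C n)) fun o1 =>
        loop (fun t =>
              Bool.rec (motive := fun _ => Bool)
                (sel lab W t (fun acc' W' c =>
                  forceN (Nat.add off (Nat.mul c o1)) fun off' =>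
                  forceN (Nat.add n c) fun n' =>
                  forceN (Nat.add lab (Nat.shiftLeft t (Nat.mul 4 i))) fun lab' =>
                  (ih (Nat.succ i) lab' nb W' n' acc' off')) d.2 acc W1 0)
                (forceN (Nat.add lab (Nat.shiftLeft t (Nat.mul 4 i))) fun lab' =>
                 forceN (Nat.succ nb) fun nb' => ih (Nat.succ i) lab' nb' W1 n acc off)
                (Nat.beq t nb)) m (Nat.succ nb)) D

end Helper681
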