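import Pool.Agent.Helper681_win.Run

namespace Helper681

open Finset

/-- every field is at most `M` -/
def Bd (M W : ℕ) : Prop := ∀ j, fld W j ≤ M

theorem shift_add {M M' W V : ℕ} (h : Bd M W) (h' : Bd M' V) (hM : M + M' < 1048576) (j : ℕ) :
    (W + V) >>> (20 * j) = W >>> (20 * j) + V >>> (20 * j) := by
  induction j with
  | zero => simp
  | succ j ih =>
    have h1 := h j
    have h2 := h' j
    unfold fld at h1 h2
    rw [show 20 * (j + 1) = 20 * j + 20 by ring, Nat.shiftRight_add, Nat.shiftRight_add,
      Nat.shiftRight_add, ih, Nat.shiftRight_eq_div_pow _ 20, Nat.shiftRight_eq_div_pow _ 20,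
      Nat.shiftRight_eq_div_pow _ 20]
    generalize W >>> (20 * j) = x at *
    generalize V >>> (20 * j) = y at *
    norm_num
    omega

theorem fld_add {M M' W V : ℕ} (h : Bd M W) (h' : Bd M' V) (hM : M + M' < 1048576) (j : ℕ) :
    fld (W + V) j = fld W j + fld V j := by
  have h1 := h j
  have h2 := h' j
  unfold fld at h1 h2 ⊢
  rw [shift_add h h' hM]
  omega

theorem fld_zero (j : ℕ) : fld 0 j = 0 := by simp [fld]

theorem fld_sum {R : ℕ} (v : ℕ → ℕ) (n : ℕ) (hv : ∀ a < n, Bd R (v a)) (hn : n * R < 1048576) :
    (∀ j, fld (∑ a ∈ range n, v a) j = ∑ a ∈ range n, fld (v a) j) ∧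
      Bd (n * R) (∑ a ∈ range n, v a) := by
  induction n with
  | zero => exact ⟨fun j => by simp [fld_zero], fun j => by simp [fld_zero]⟩
  | succ n ih =>
    have hn' : n * R + R < 1048576 := by rw [Nat.succ_mul] at hn; exact hn
    obtain ⟨h1, h2⟩ := ih (fun a ha => hv a (by omega)) (by omega)
    have h3 : ∀ j, fld (∑ a ∈ range (n + 1), v a) j = ∑ a ∈ range (n + 1), fld (v a) j := by
      intro j
      rw [sum_range_succ, sum_range_succ, fld_add h2 (hv n (by omega)) hn', h1]
    refine ⟨h3, fun j => ?_⟩
    have := h2 j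
    have h4 := hv n (by omega) j
    rw [h3, sum_range_succ, ← h1, Nat.succ_mul]
    omega

theorem fld_shift (W i j : ℕ) : fld (W >>> (20 * i)) j = fld W (i + j) := by
  unfold fld
  rw [← Nat.shiftRight_add, ← Nat.mul_add]

/-- triangular numbers -/
def tri (i : ℕ) : ℕ := i * (i - 1) / 2

theorem tri_succ (i : ℕ) : tri (i + 1) = tri i + i := Nat.triangle_succ i

theorem tri_mono {i j : ℕ} (h : i ≤ j) : tri i ≤ tri j := by
  induction j, h using Nat.le_induction with
  | base => exact le_rfl
  | succ j _ ih => rw [tri_succ]; omega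

section

variable (U C lin : ℕ) (row : ℕ → ℕ → ℕ) (f : ℕ → ℕ)

theorem fld_WW {M R : ℕ} (hlin : Bd M lin) (hrow : ∀ i a, Bd R (row i a)) (i : ℕ)
    (hi : M + tri i * R < 1048576) :
    (∀ j, fld (WW lin row f i) j = fld lin (tri i + j) +
      ∑ i' ∈ range i, ∑ a' ∈ range i', if f a' = f i' then
        fld (row i' a') (tri i - tri (i' + 1) + j) else 0) ∧
      Bd (M + tri i * R) (WW lin row f i) := by
  induction i with
  | zero => exact ⟨fun j => by simp [WW, tri], fun j => by simpa [WW, tri] using hlin j⟩
  | succ i ih =>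
    have e : tri (i + 1) * R = tri i * R + i * R := by rw [tri_succ]; ring
    obtain ⟨h1, h2⟩ := ih (by omega)
    have hv : ∀ a < i, Bd R (if f a = f i then row i a else 0) := by
      intro a _
      split_ifs
      · exact hrow i a
      · intro j; rw [fld_zero]; exact Nat.zero_le _
    obtain ⟨h3, h4⟩ := fld_sum (R := R) (fun a => if f a = f i then row i a else 0) i hv (by omega)
    have h5 : Bd (M + tri i * R) ((WW lin row f i) >>> (20 * i)) := by
      intro j; rw [fld_shift]; exact h2 _
    have h6 : ∀ j, fld (WW lin row f (i + 1)) j = fld (WW lin row f i) (i + j) +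
        ∑ a ∈ range i, if f a = f i then fld (row i a) j else 0 := by
      intro j
      rw [WW, fld_add h5 h4 (by omega), fld_shift, h3]
      congr 1
      refine sum_congr rfl fun a _ => ?_
      split_ifs
      · rfl
      · exact fld_zero j
    constructor
    · intro j
      rw [h6, h1, sum_range_succ, tri_succ, Nat.sub_self, Nat.zero_add, add_assoc (tri i) i j,
        add_assoc (fld lin _)]
      congr 2
      refine sum_congr rfl fun i' hi' => sum_congr rfl fun a' _ => ?_
      have : tri (i' + 1) ≤ tri i := tri_mono (mem_range.mp hi')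
      rw [show tri i - tri (i' + 1) + (i + j) = tri i + i - tri (i' + 1) + j by omega]
    · intro j
      rw [h6, e]
      have h7 := h4 j
      have h8 := h2 (i + j)
      rw [h3] at h7
      have h9 : (∑ a ∈ range i, if f a = f i then fld (row i a) j else 0) =
          ∑ a ∈ range i, fld (if f a = f i then row i a else 0) j := by
        refine sum_congr rfl fun a _ => ?_
        split_ifs
        · rfl
        · exact (fld_zero j).symm
      rw [h9]
      omega

/-- the window functional -/
def TT {κ : Type*} [DecidableEq κ] (L : ℕ → ℕ → ℤ) (q : ℕ → ℕ → ℕ → ℕ → ℤ) (K : ℕ)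
    (g : ℕ → κ) : ℤ :=
  ∑ i ∈ range K, ∑ a ∈ range i, if g a = g i then
    L a i + ∑ i' ∈ range i, ∑ a' ∈ range i', if g a' = g i' then q a' i' a i else 0 else 0

theorem nn_eq (i : ℕ) : nn f i = ∑ i' ∈ range i, ∑ a' ∈ range i', if f a' = f i' then 1 else 0 := by
  induction i with
  | zero => rfl
  | succ i ih => rw [nn, ih, sum_range_succ, cc]

theorem ac_of {M R : ℕ} (hlin : Bd M lin) (hrow : ∀ i a, Bd R (row i a)) (K : ℕ)
    (hK : M + tri K * R < 1048576) :
    (ac lin row f K : ℤ) - of U C f K =
      TT (fun a i => (fld lin (tri i + a) : ℤ) - U)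
        (fun a' i' a i => (fld (row i' a') (tri i - tri (i' + 1) + a) : ℤ) - C) K f := by
  induction K with
  | zero => rfl
  | succ K ih =>
    have e : tri (K + 1) * R = tri K * R + K * R := by rw [tri_succ]; ring
    have h1 := ih (by omega)
    have h2 := (fld_WW lin row f hlin hrow K (by omega)).1
    unfold TT at h1 ⊢
    rw [sum_range_succ, ← h1, ac, of]
    push_cast
    have h3 : (∑ a ∈ range K, if f a = f K then
        ((fld lin (tri K + a) : ℤ) - U) + ∑ i' ∈ range K, ∑ a' ∈ range i', (if f a' = f i' then
          ((fld (row i' a') (tri K - tri (i' + 1) + a) : ℤ) - C) else 0) else 0) =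
        (∑ a ∈ range K, if f a = f K then (fld (WW lin row f K) a : ℤ) else 0) -
          cc f K * (U + C * nn f K) := by
      rw [cc, nn_eq]
      push_cast
      rw [Finset.sum_mul, ← Finset.sum_sub_distrib]
      refine sum_congr rfl fun a _ => ?_
      split_ifs with h
      · rw [h2]
        push_cast
        rw [Finset.mul_sum, one_mul]
        have : ∀ x y z w v : ℤ, v = z - w → x - y + v = x + z - (y + w) := by
          intro x y z w v h; rw [h]; ring
        apply this
        rw [← Finset.sum_sub_distrib]
        refine sum_congr rfl fun i' _ => ?_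
        rw [Finset.mul_sum, ← Finset.sum_sub_distrib]
        refine sum_congr rfl fun a' _ => ?_
        split_ifs <;> simp
      · simp
    have h4 : (∑ a ∈ range K, if f a = f K then (fld (WW lin row f K) a : ℤ) else 0) =
        ∑ a ∈ range K, ((if f a = f K then fld (WW lin row f K) a else 0 : ℕ) : ℤ) := by
      refine sum_congr rfl fun a _ => ?_
      split_ifs <;> simp
    rw [h3, h4]
    push_cast
    ring

end

end Helper681
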