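import Mathlib
import Pool.Agent.Helper681_win.Check

namespace Helper681

open Finset

theorem forceN_eq (n : ℕ) (k : ℕ → Bool) : forceN n k = k n := by
  cases n <;> rfl

/-- a field of twenty bits -/
def fld (W j : ℕ) : ℕ := (W >>> (20 * j)) % 1048576

/-- label extracted from the packed labels -/
def lbl (lab a : ℕ) : ℕ := (lab >>> a) % 16

def sA (lab w t : ℕ) (rows : List (ℕ × ℕ × ℕ)) : ℕ :=
  (rows.map fun r => if lbl lab r.1 = t then (w >>> r.2.1) % 1048576 else 0).sum
def sR (lab t : ℕ) (rows : List (ℕ × ℕ × ℕ)) : ℕ :=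
  (rows.map fun r => if lbl lab r.1 = t then r.2.2 else 0).sum
def sC (lab t : ℕ) (rows : List (ℕ × ℕ × ℕ)) : ℕ :=
  (rows.map fun r => if lbl lab r.1 = t then 1 else 0).sum

theorem sel_nil (lab w t : ℕ) (k : ℕ → ℕ → ℕ → Bool) (acc W c : ℕ) :
    sel lab w t k [] acc W c = k acc W c := rfl

theorem sel_cons (lab w t : ℕ) (k : ℕ → ℕ → ℕ → Bool) (r : ℕ × ℕ × ℕ) (rows : List (ℕ × ℕ × ℕ))
    (acc W c : ℕ) :
    sel lab w t k (r :: rows) acc W c =
      if lbl lab r.1 = t then
        sel lab w t k rows (acc + (w >>> r.2.1) % 1048576) (W + r.2.2) (c + 1)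
      else sel lab w t k rows acc W c := by
  by_cases h : lbl lab r.1 = t
  · rw [if_pos h]
    have hb : Nat.beq (Nat.mod (Nat.shiftRight lab r.1) 16) t = true :=
      (Nat.beq_eq ▸ h : (lbl lab r.1).beq t = true)
    change Bool.rec (motive := fun _ => Bool) _ _
      (Nat.beq (Nat.mod (Nat.shiftRight lab r.1) 16) t) = _
    rw [hb]
    change forceN _ _ = _
    rw [forceN_eq, forceN_eq]
    rfl
  · rw [if_neg h]
    have hb : Nat.beq (Nat.mod (Nat.shiftRight lab r.1) 16) t = false := by
      rw [← Bool.not_eq_true]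
      intro h'
      exact h (Nat.eq_of_beq_eq_true h')
    change Bool.rec (motive := fun _ => Bool) _ _
      (Nat.beq (Nat.mod (Nat.shiftRight lab r.1) 16) t) = _
    rw [hb]
    rfl

theorem sel_eq (lab w t : ℕ) (k : ℕ → ℕ → ℕ → Bool) (rows : List (ℕ × ℕ × ℕ)) :
    ∀ acc W c, sel lab w t k rows acc W c =
      k (acc + sA lab w t rows) (W + sR lab t rows) (c + sC lab t rows) := by
  induction rows with
  | nil => intro acc W c; rfl
  | cons r rows ih =>
    intro acc W c
    rw [sel_cons]
    by_cases h : lbl lab r.1 = t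
    · rw [if_pos h, ih]
      simp only [sA, sR, sC, List.map_cons, List.sum_cons, h, if_true]
      simp only [Nat.add_assoc]
    · rw [if_neg h, ih]
      simp only [sA, sR, sC, List.map_cons, List.sum_cons, h, if_false, Nat.zero_add]

theorem selL_cons (lab w t B o1 off : ℕ) (r : ℕ × ℕ × ℕ) (rows : List (ℕ × ℕ × ℕ))
    (acc c : ℕ) :
    selL lab w t B o1 off (r :: rows) acc c =
      if lbl lab r.1 = t then
        selL lab w t B o1 off rows (acc + (w >>> r.2.1) % 1048576) (c + 1)
      else selL lab w t B o1 off rows acc c := by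
  by_cases h : lbl lab r.1 = t
  · rw [if_pos h]
    have hb : Nat.beq (Nat.mod (Nat.shiftRight lab r.1) 16) t = true :=
      (Nat.beq_eq ▸ h : (lbl lab r.1).beq t = true)
    change Bool.rec (motive := fun _ => Bool) _ _
      (Nat.beq (Nat.mod (Nat.shiftRight lab r.1) 16) t) = _
    rw [hb]
    rfl
  · rw [if_neg h]
    have hb : Nat.beq (Nat.mod (Nat.shiftRight lab r.1) 16) t = false := by
      rw [← Bool.not_eq_true]
      intro h'
      exact h (Nat.eq_of_beq_eq_true h')
    change Bool.rec (motive := fun _ => Bool) _ _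
      (Nat.beq (Nat.mod (Nat.shiftRight lab r.1) 16) t) = _
    rw [hb]
    rfl

theorem selL_eq (lab w t B o1 off : ℕ) (rows : List (ℕ × ℕ × ℕ)) :
    ∀ acc c, selL lab w t B o1 off rows acc c = true →
      acc + sA lab w t rows + B ≤ off + (c + sC lab t rows) * o1 := by
  induction rows with
  | nil =>
    intro acc c h
    have h' : Nat.ble (Nat.add acc B) (Nat.add off (Nat.mul c o1)) = true := h
    have := Nat.le_of_ble_eq_true h'
    simpa [sA, sC] using this
  | cons r rows ih =>
    intro acc c h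
    rw [selL_cons] at h
    by_cases hl : lbl lab r.1 = t
    · rw [if_pos hl] at h
      have := ih _ _ h
      simp only [sA, sC, List.map_cons, List.sum_cons, hl, if_true] at this ⊢
      rw [show c + 1 + (List.map (fun r => if lbl lab r.1 = t then 1 else 0) rows).sum =
        c + (1 + (List.map (fun r => if lbl lab r.1 = t then 1 else 0) rows).sum) by ring] at this
      omega
    · rw [if_neg hl] at h
      have := ih _ _ h
      simpa only [sA, sC, List.map_cons, List.sum_cons, hl, if_false, Nat.zero_add] using this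

theorem loop_spec (step : ℕ → Bool) (m : ℕ) : ∀ n, loop step m n = true →
    ∀ t < n, Nat.testBit m t = true → step t = true := by
  intro n
  induction n with
  | zero => intro _ t ht; omega
  | succ n ih =>
    intro h t ht hm
    have h' : Bool.rec (motive := fun _ => Bool) (loop step m n)
      (Bool.rec (motive := fun _ => Bool) false (loop step m n) (step n)) (Nat.testBit m n)
        = true := h
    rcases Nat.lt_succ_iff_lt_or_eq.mp ht with h1 | h1
    · apply ih _ t h1 hm
      cases hb : Nat.testBit m n with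
      | false => rw [hb] at h'; exact h'
      | true =>
        rw [hb] at h'
        cases hs : step n with
        | false => rw [hs] at h'; exact absurd h' (by simp)
        | true => rw [hs] at h'; exact h'
    · subst h1
      rw [hm] at h'
      cases hs : step t with
      | false => rw [hs] at h'; exact absurd h' (by simp)
      | true => rfl

/-- no forbidden quadruple with last label `t` -/
def okAt (lab t : ℕ) (ps : List (ℕ × ℕ × ℕ)) : Prop :=
  ∀ p ∈ ps, ¬ (lbl lab p.1 ≠ lbl lab p.2.1 ∧ lbl lab p.1 ≠ lbl lab p.2.2 ∧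
    lbl lab p.2.1 ≠ lbl lab p.2.2 ∧ lbl lab p.1 ≠ t ∧ lbl lab p.2.1 ≠ t ∧ lbl lab p.2.2 ≠ t)

theorem beq_cases (x y : ℕ) : (Nat.beq x y = true ∧ x = y) ∨ (Nat.beq x y = false ∧ x ≠ y) := by
  by_cases h : x = y
  · exact Or.inl ⟨by rw [h]; exact Nat.beq_refl y, h⟩
  · refine Or.inr ⟨?_, h⟩
    rw [← Bool.not_eq_true]
    intro h'
    exact h (Nat.eq_of_beq_eq_true h')

theorem allowed_cons (lab : ℕ) (k : ℕ → Bool) (p : ℕ × ℕ × ℕ) (ps : List (ℕ × ℕ × ℕ)) (m : ℕ) :
    allowed lab k (p :: ps) m =
      if lbl lab p.1 ≠ lbl lab p.2.1 ∧ lbl lab p.1 ≠ lbl lab p.2.2 ∧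
        lbl lab p.2.1 ≠ lbl lab p.2.2 then
        allowed lab k ps (m &&& (2 ^ lbl lab p.1 ||| (2 ^ lbl lab p.2.1 ||| 2 ^ lbl lab p.2.2)))
      else allowed lab k ps m := by
  have e0 : allowed lab k (p :: ps) m =
      forceN (lbl lab p.1) fun x =>
      forceN (lbl lab p.2.1) fun y =>
      Bool.rec (motive := fun _ => Bool)
      (forceN (lbl lab p.2.2) fun z =>
        (Bool.rec (motive := fun _ => Bool)
         (Bool.rec (motive := fun _ => Bool)
         (forceN (Nat.land m (Nat.lor (Nat.pow 2 x)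
            (Nat.lor (Nat.pow 2 y) (Nat.pow 2 z)))) (allowed lab k ps))
         (allowed lab k ps m) (Nat.beq y z)) (allowed lab k ps m)
           (Nat.beq x z))) (allowed lab k ps m)
              (Nat.beq x y) := rfl
  have e : allowed lab k (p :: ps) m = Bool.rec (motive := fun _ => Bool)
      (forceN (lbl lab p.2.2) fun z =>
        (Bool.rec (motive := fun _ => Bool)
         (Bool.rec (motive := fun _ => Bool)
         (forceN (Nat.land m (Nat.lor (Nat.pow 2 (lbl lab p.1))
            (Nat.lor (Nat.pow 2 (lbl lab p.2.1)) (Nat.pow 2 z)))) (allowed lab k ps))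
         (allowed lab k ps m) (Nat.beq (lbl lab p.2.1) z)) (allowed lab k ps m)
           (Nat.beq (lbl lab p.1) z))) (allowed lab k ps m)
              (Nat.beq (lbl lab p.1) (lbl lab p.2.1)) := by
    rw [e0, forceN_eq, forceN_eq]
  rw [e]
  rcases beq_cases (lbl lab p.1) (lbl lab p.2.1) with ⟨h1, h1'⟩ | ⟨h1, h1'⟩
  · rw [h1, if_neg (by tauto)]
  · rw [h1]
    change forceN _ _ = _
    rw [forceN_eq]
    rcases beq_cases (lbl lab p.1) (lbl lab p.2.2) with ⟨h2, h2'⟩ | ⟨h2, h2'⟩
    · rw [h2, if_neg (by tauto)]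
    · rw [h2]
      rcases beq_cases (lbl lab p.2.1) (lbl lab p.2.2) with ⟨h3, h3'⟩ | ⟨h3, h3'⟩
      · rw [h3, if_neg (by tauto)]
      · rw [h3, if_pos ⟨h1', h2', h3'⟩]
        change forceN _ _ = _
        rw [forceN_eq]
        rfl

theorem allowed_spec (lab : ℕ) (k : ℕ → Bool) (t : ℕ) : ∀ (ps : List (ℕ × ℕ × ℕ)) (m : ℕ),
    allowed lab k ps m = true → Nat.testBit m t = true → okAt lab t ps →
      ∃ m', Nat.testBit m' t = true ∧ k m' = true := by
  intro ps
  induction ps with
  | nil => intro m h hm _; exact ⟨m, hm, h⟩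
  | cons p ps ih =>
    intro m h hm hok
    have hok' : okAt lab t ps := fun q hq => hok q (List.mem_cons_of_mem _ hq)
    have h0 := hok p List.mem_cons_self
    rw [allowed_cons] at h
    split_ifs at h with hc
    · refine ih _ h ?_ hok'
      obtain ⟨c1, c2, c3⟩ := hc
      rw [Nat.testBit_and, hm, Bool.true_and, Nat.testBit_or, Nat.testBit_or]
      have h4 : lbl lab p.1 = t ∨ lbl lab p.2.1 = t ∨ lbl lab p.2.2 = t := by
        by_contra hcon
        push Not at hcon
        exact h0 ⟨c1, c2, c3, hcon.1, hcon.2.1, hcon.2.2⟩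
      rcases h4 with h4 | h4 | h4 <;> simp [h4, Nat.testBit_two_pow_self]
    · exact ih _ h hm hok'

theorem withMask_spec (lab nb : ℕ) (ps : List (ℕ × ℕ × ℕ)) (k : ℕ → Bool) (t : ℕ)
    (h : withMask lab nb ps k = true) (ht : t ≤ nb) (hok : okAt lab t ps) :
    ∃ m', Nat.testBit m' t = true ∧ k m' = true := by
  have hm : Nat.testBit (2 ^ (nb + 1) - 1) t = true := by
    rw [Nat.testBit_two_pow_sub_one]
    simpa using Nat.lt_succ_of_le ht
  have h' : Bool.rec (motive := fun _ => Bool) (allowed lab k ps (2 ^ (nb + 1) - 1))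
      (k (2 ^ (nb + 1) - 1)) (Nat.ble nb 2) = true := h
  cases hb : Nat.ble nb 2 with
  | true => rw [hb] at h'; exact ⟨_, hm, h'⟩
  | false => rw [hb] at h'; exact allowed_spec lab k t ps _ h' hm hok

end Helper681
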