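import Pool.Agent.Helper681_win.Affine
import Pool.Agent.Helper681_win.Sound

namespace Helper681

open Finset

def e0 (w x z : ℕ) : ℕ := 2 * ((w * 13 + x) * 13 + z)
def e1 (x y z : ℕ) : ℕ := 2 * ((x * 13 + y) * 13 + z) + 1

/-- code of the affine class of two pairs -/
def code (a' i' a i : ℕ) : ℕ :=
  let m := min a' a
  let g := Nat.gcd (Nat.gcd (a' - m) (i' - m)) (Nat.gcd (a - m) (i - m))
  let w := (a' - m) / g
  let x := (i' - m) / g
  let y := (a - m) / g
  let z := (i - m) / g
  if a ≤ a' then min (e0 w x z) (e0 (z - x) (z - w) z)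
  else min (e1 x y z) (e1 (z - y) (z - x) z)

section

variable {G : Type*} [AddCommGroup G] [Fintype G] {κ : Type*} [DecidableEq κ] (c : G → κ)

/-- value on a code -/
def MM (k : ℕ) : ℤ :=
  if k % 2 = 0 then N4 c (k / 2 / 169 : ℕ) (k / 2 / 13 % 13 : ℕ) 0 (k / 2 % 13 : ℕ)
  else N4 c 0 (k / 2 / 169 : ℕ) (k / 2 / 13 % 13 : ℕ) (k / 2 % 13 : ℕ)

theorem MM_e0 (w x z : ℕ) (hx : x < 13) (hz : z < 13) : MM c (e0 w x z) = N4 c w x 0 z := by
  unfold MM e0
  have h1 : 2 * ((w * 13 + x) * 13 + z) % 2 = 0 := by omega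
  have h2 : 2 * ((w * 13 + x) * 13 + z) / 2 = (w * 13 + x) * 13 + z := by omega
  rw [if_pos h1, h2]
  have h3 : ((w * 13 + x) * 13 + z) / 169 = w := by omega
  have h4 : ((w * 13 + x) * 13 + z) / 13 % 13 = x := by omega
  have h5 : ((w * 13 + x) * 13 + z) % 13 = z := by omega
  rw [h3, h4, h5]

theorem MM_e1 (x y z : ℕ) (hy : y < 13) (hz : z < 13) : MM c (e1 x y z) = N4 c 0 x y z := by
  unfold MM e1
  have h1 : ¬ (2 * ((x * 13 + y) * 13 + z) + 1) % 2 = 0 := by omega
  have h2 : (2 * ((x * 13 + y) * 13 + z) + 1) / 2 = (x * 13 + y) * 13 + z := by omega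
  rw [if_neg h1, h2]
  have h3 : ((x * 13 + y) * 13 + z) / 169 = x := by omega
  have h4 : ((x * 13 + y) * 13 + z) / 13 % 13 = y := by omega
  have h5 : ((x * 13 + y) * 13 + z) % 13 = z := by omega
  rw [h3, h4, h5]

omit [Fintype G] in
theorem neg_bij : Function.Bijective fun d : G => (-1 : ℤ) • d := by
  have : (fun d : G => (-1 : ℤ) • d) = Neg.neg := by
    funext d; simp
  rw [this]
  exact (Equiv.neg G).bijective

theorem N4_reflect (w x y z : ℤ) : N4 c (z - x) (z - w) (z - z) (z - y) = N4 c w x y z := by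
  have h := N4_aff c w x y z (-1) z neg_bij
  rw [show (-1 : ℤ) * w + z = z - w by ring, show (-1 : ℤ) * x + z = z - x by ring,
    show (-1 : ℤ) * y + z = z - y by ring, show (-1 : ℤ) * z + z = z - z by ring] at h
  rw [N4_swap1, N4_swap2, h]

theorem N4_code (a' i' a i : ℕ) (h1 : a' < i') (h2 : i' < i) (h3 : a < i) (h4 : i < 13)
    (hr : ∀ r : ℕ, 0 < r → r < 13 → Function.Bijective fun d : G => (r : ℤ) • d) :
    N4 c a' i' a i = MM c (code a' i' a i) := by
  set m := min a' a with hm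
  set g := Nat.gcd (Nat.gcd (a' - m) (i' - m)) (Nat.gcd (a - m) (i - m)) with hg
  have hma' : m ≤ a' := min_le_left _ _
  have hma : m ≤ a := min_le_right _ _
  have hgz : g ∣ i - m := (Nat.gcd_dvd_right _ _).trans (Nat.gcd_dvd_right _ _)
  have hgy : g ∣ a - m := (Nat.gcd_dvd_right _ _).trans (Nat.gcd_dvd_left _ _)
  have hgx : g ∣ i' - m := (Nat.gcd_dvd_left _ _).trans (Nat.gcd_dvd_right _ _)
  have hgw : g ∣ a' - m := (Nat.gcd_dvd_left _ _).trans (Nat.gcd_dvd_left _ _)
  have hg0 : 0 < g := Nat.pos_of_dvd_of_pos hgz (by omega)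
  have hg13 : g < 13 := by
    have := Nat.le_of_dvd (by omega) hgz
    omega
  obtain ⟨w, hw⟩ := hgw
  obtain ⟨x, hx⟩ := hgx
  obtain ⟨y, hy⟩ := hgy
  obtain ⟨z, hz⟩ := hgz
  have ew : (a' - m) / g = w := by rw [hw]; exact Nat.mul_div_cancel_left _ hg0
  have ex : (i' - m) / g = x := by rw [hx]; exact Nat.mul_div_cancel_left _ hg0
  have ey : (a - m) / g = y := by rw [hy]; exact Nat.mul_div_cancel_left _ hg0
  have ez : (i - m) / g = z := by rw [hz]; exact Nat.mul_div_cancel_left _ hg0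
  have hwx : w < x := lt_of_mul_lt_mul_left (a := g) (by rw [← hw, ← hx]; omega) hg0.le
  have hxz : x < z := lt_of_mul_lt_mul_left (a := g) (by rw [← hz, ← hx]; omega) hg0.le
  have hyz : y < z := lt_of_mul_lt_mul_left (a := g) (by rw [← hz, ← hy]; omega) hg0.le
  have hz13 : z < 13 := by
    have : z ≤ g * z := Nat.le_mul_of_pos_left _ hg0
    omega
  have key : N4 c a' i' a i = N4 c w x y z := by
    rw [← N4_aff c w x y z g m (hr g hg0 hg13)]
    have q1 : (a' : ℤ) = (g : ℤ) * w + m := by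
      have : a' = g * w + m := by omega
      exact_mod_cast this
    have q2 : (i' : ℤ) = (g : ℤ) * x + m := by
      have : i' = g * x + m := by omega
      exact_mod_cast this
    have q3 : (a : ℤ) = (g : ℤ) * y + m := by
      have : a = g * y + m := by omega
      exact_mod_cast this
    have q4 : (i : ℤ) = (g : ℤ) * z + m := by
      have : i = g * z + m := by omega
      exact_mod_cast this
    rw [← q1, ← q2, ← q3, ← q4]
  have hc : code a' i' a i = if a ≤ a' then min (e0 w x z) (e0 (z - x) (z - w) z)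
      else min (e1 x y z) (e1 (z - y) (z - x) z) := by
    unfold code
    simp only [← hm, ← hg, ew, ex, ey, ez]
  rw [hc, key]
  split_ifs with hle
  · have hy0 : y = 0 := by
      have : g * y = 0 := by omega
      rcases Nat.mul_eq_zero.mp this with h | h <;> omega
    subst hy0
    have r1 : MM c (e0 w x z) = N4 c w x (0 : ℕ) z := by
      rw [MM_e0 c w x z (by omega) hz13]; simp
    have r2 : MM c (e0 (z - x) (z - w) z) = N4 c w x (0 : ℕ) z := by
      rw [MM_e0 c _ _ z (by omega) hz13, Nat.cast_sub (by omega), Nat.cast_sub (by omega)]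
      have := N4_reflect c w x 0 z
      rw [sub_self, sub_zero] at this
      rw [this]
      simp
    rcases min_choice (e0 w x z) (e0 (z - x) (z - w) z) with h | h <;> rw [h]
    · rw [r1]
    · rw [r2]
  · have hw0 : w = 0 := by
      have : g * w = 0 := by omega
      rcases Nat.mul_eq_zero.mp this with h | h <;> omega
    subst hw0
    have r1 : MM c (e1 x y z) = N4 c (0 : ℕ) x y z := by
      rw [MM_e1 c x y z (by omega) hz13]; simp
    have r2 : MM c (e1 (z - y) (z - x) z) = N4 c (0 : ℕ) x y z := by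
      rw [MM_e1 c _ _ z (by omega) hz13, Nat.cast_sub (by omega), Nat.cast_sub (by omega)]
      have := N4_reflect c 0 x y z
      rw [sub_self, sub_zero] at this
      rw [N4_swap, this]
      simp
    rcases min_choice (e1 x y z) (e1 (z - y) (z - x) z) with h | h <;> rw [h]
    · rw [r1]
    · rw [r2]

end

/-- all ordered pairs of pairs, by the level of the second pair -/
def ents (K : ℕ) : List (ℕ × ℕ × ℕ × ℕ) :=
  (List.range K).flatMap fun i => (List.range i).flatMap fun a => (List.range i).flatMap fun i' =>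
    (List.range i').map fun a' => (a', i', a, i)

theorem sum_flatMap {ι : Type*} (g : ℕ → List ι) (h : ι → ℤ) (n : ℕ) :
    (((List.range n).flatMap g).map h).sum = ∑ i ∈ range n, ((g i).map h).sum := by
  induction n with
  | zero => rfl
  | succ n ih =>
    rw [List.range_succ, List.flatMap_append, List.map_append, List.sum_append, ih,
      sum_range_succ]
    simp

theorem sum_map_rangeZ {ι : Type*} (g : ℕ → ι) (h : ι → ℤ) (n : ℕ) :
    (((List.range n).map g).map h).sum = ∑ i ∈ range n, h (g i) := by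
  induction n with
  | zero => rfl
  | succ n ih =>
    rw [List.range_succ, List.map_append, List.map_append, List.sum_append, ih, sum_range_succ]
    simp

theorem sum_ents (F : ℕ → ℕ → ℕ → ℕ → ℤ) (K : ℕ) :
    ((ents K).map fun e => F e.1 e.2.1 e.2.2.1 e.2.2.2).sum =
      ∑ i ∈ range K, ∑ a ∈ range i, ∑ i' ∈ range i, ∑ a' ∈ range i', F a' i' a i := by
  unfold ents
  rw [sum_flatMap]
  refine sum_congr rfl fun i _ => ?_
  rw [sum_flatMap]
  refine sum_congr rfl fun a _ => ?_
  rw [sum_flatMap]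
  refine sum_congr rfl fun i' _ => ?_
  rw [sum_map_rangeZ]

theorem mem_ents {K : ℕ} {e : ℕ × ℕ × ℕ × ℕ} (h : e ∈ ents K) :
    e.1 < e.2.1 ∧ e.2.1 < e.2.2.2 ∧ e.2.2.1 < e.2.2.2 ∧ e.2.2.2 < K := by
  unfold ents at h
  simp only [List.mem_flatMap, List.mem_map, List.mem_range] at h
  obtain ⟨i, hi, a, ha, i', hi', a', ha', rfl⟩ := h
  exact ⟨ha', hi', ha, hi⟩

/-- kernel friendly accumulation of two packed sums and two plain sums -/
noncomputable def accum {ι : Type} (code v : ι → ℕ) (C w : ℕ) (l : List ι) :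
    ℕ → ℕ → ℕ → ℕ → Bool :=
  List.rec (motive := fun _ => ℕ → ℕ → ℕ → ℕ → Bool)
    (fun P Q S T => and (Nat.beq P Q) (and (Nat.blt S (Nat.pow 2 w)) (Nat.blt T (Nat.pow 2 w))))
    (fun e _ ih P Q S T =>
      forceN (Nat.mul w (code e)) fun k =>
      forceN (v e) fun u =>
      forceN (Nat.add P (Nat.shiftLeft u k)) fun P' =>
      forceN (Nat.add Q (Nat.shiftLeft C k)) fun Q' =>
      forceN (Nat.add S u) fun S' =>
      forceN (Nat.add T C) fun T' => ih P' Q' S' T') l

theorem accum_spec {ι : Type} (code v : ι → ℕ) (C w : ℕ) (l : List ι) : ∀ P Q S T,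
    accum code v C w l P Q S T = true →
      P + (l.map fun e => v e * 2 ^ (w * code e)).sum =
        Q + (l.map fun e => C * 2 ^ (w * code e)).sum ∧
      S + (l.map v).sum < 2 ^ w ∧ T + (l.map fun _ => C).sum < 2 ^ w := by
  induction l with
  | nil =>
    intro P Q S T h
    have h' : (Nat.beq P Q && (Nat.blt S (2 ^ w) && Nat.blt T (2 ^ w))) = true := h
    simp only [Bool.and_eq_true] at h'
    refine ⟨?_, ?_, ?_⟩
    · simpa using Nat.eq_of_beq_eq_true h'.1
    · have := h'.2.1
      simp only [Nat.blt_eq] at this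
      simpa using this
    · have := h'.2.2
      simp only [Nat.blt_eq] at this
      simpa using this
  | cons e l ih =>
    intro P Q S T h
    have h' : (forceN (Nat.mul w (code e)) fun k =>
      forceN (v e) fun u =>
      forceN (Nat.add P (Nat.shiftLeft u k)) fun P' =>
      forceN (Nat.add Q (Nat.shiftLeft C k)) fun Q' =>
      forceN (Nat.add S u) fun S' =>
      forceN (Nat.add T C) fun T' => accum code v C w l P' Q' S' T') = true := h
    simp only [forceN_eq] at h'
    obtain ⟨a1, a2, a3⟩ := ih _ _ _ _ h'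
    have s1 : Nat.shiftLeft (v e) (Nat.mul w (code e)) = v e * 2 ^ (w * code e) :=
      Nat.shiftLeft_eq _ _
    have s2 : Nat.shiftLeft C (Nat.mul w (code e)) = C * 2 ^ (w * code e) :=
      Nat.shiftLeft_eq _ _
    rw [s1, s2] at a1
    simp only [List.map_cons, List.sum_cons]
    simp only [Nat.add_eq] at a1 a2 a3
    refine ⟨?_, ?_, ?_⟩
    · rw [← add_assoc, ← add_assoc]; exact a1
    · rw [← add_assoc]; exact a2
    · rw [← add_assoc]; exact a3

/-- all class sums vanish, in the form needed -/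
theorem quad_zero {G : Type*} [AddCommGroup G] [Fintype G] {κ : Type*} [DecidableEq κ]
    (c : G → κ) (K : ℕ) (hK : K ≤ 13) (C w : ℕ) (v : ℕ → ℕ → ℕ → ℕ → ℕ)
    (hr : ∀ r : ℕ, 0 < r → r < 13 → Function.Bijective fun d : G => (r : ℤ) • d)
    (h : accum (fun e : ℕ × ℕ × ℕ × ℕ => code e.1 e.2.1 e.2.2.1 e.2.2.2)
      (fun e => v e.1 e.2.1 e.2.2.1 e.2.2.2) C w (ents K) 0 0 0 0 = true) :
    ∑ i ∈ range K, ∑ a ∈ range i, ∑ i' ∈ range i, ∑ a' ∈ range i',
        ((v a' i' a i : ℤ) - C) * N4 c a' i' a i = 0 := by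
  obtain ⟨h1, h2, h3⟩ := accum_spec _ _ _ _ _ _ _ _ _ h
  rw [zero_add, zero_add] at h1
  rw [zero_add] at h2 h3
  have h4 := packed_zero (ents K) (fun e : ℕ × ℕ × ℕ × ℕ => code e.1 e.2.1 e.2.2.1 e.2.2.2)
    (fun e => v e.1 e.2.1 e.2.2.1 e.2.2.2) C w (MM c) h1 h2 h3
  rw [← sum_ents (fun a' i' a i => ((v a' i' a i : ℤ) - C) * N4 c a' i' a i), ← h4]
  congr 1
  apply List.map_congr_left
  intro e he
  obtain ⟨g1, g2, g3, g4⟩ := mem_ents he
  rw [N4_code c _ _ _ _ g1 g2 g3 (by omega) hr]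

end Helper681
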