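import Pool.Agent.Helper681_win.Closed

namespace Helper681

open Finset

section packed

theorem digits_unique (b : ℕ) (hb : 0 < b) : ∀ (n : ℕ) (U V : ℕ → ℕ), (∀ k, U k < b) →
    (∀ k, V k < b) → ∑ k ∈ range n, U k * b ^ k = ∑ k ∈ range n, V k * b ^ k →
    ∀ k < n, U k = V k := by
  intro n
  induction n with
  | zero => intro U V _ _ _ k hk; omega
  | succ n ih =>
    intro U V hU hV h k hk
    rw [sum_range_succ', sum_range_succ'] at h
    have e1 : ∀ W : ℕ → ℕ, ∑ k ∈ range n, W (k + 1) * b ^ (k + 1) =
        b * ∑ k ∈ range n, W (k + 1) * b ^ k := by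
      intro W
      rw [mul_sum]
      exact sum_congr rfl fun k _ => by rw [pow_succ]; ring
    rw [e1, e1, pow_zero, mul_one, mul_one] at h
    have h0 : U 0 = V 0 := by
      have := congrArg (fun x => x % b) h
      simp only [Nat.mul_add_mod, Nat.mod_eq_of_lt (hU 0), Nat.mod_eq_of_lt (hV 0)] at this
      exact this
    rw [h0] at h
    have h1 := Nat.eq_of_mul_eq_mul_left hb (Nat.add_right_cancel h)
    cases k with
    | zero => exact h0
    | succ k =>
      exact ih (fun k => U (k + 1)) (fun k => V (k + 1)) (fun k => hU _) (fun k => hV _)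
        h1 k (by omega)

theorem sum_fib {ι : Type*} (code : ι → ℕ) (v : ι → ℤ) (F : ℕ → ℤ) (n : ℕ) (l : List ι)
    (hn : ∀ e ∈ l, code e < n) :
    ∑ k ∈ range n, (l.map fun e => if code e = k then v e else 0).sum * F k =
      (l.map fun e => v e * F (code e)).sum := by
  induction l with
  | nil => simp
  | cons e l ih =>
    have h1 := ih fun x hx => hn x (List.mem_cons_of_mem _ hx)
    have h2 := hn e List.mem_cons_self
    simp only [List.map_cons, List.sum_cons, add_mul, sum_add_distrib, h1]
    congr 1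
    rw [sum_eq_single (code e)]
    · simp
    · intro k _ hk
      rw [if_neg (Ne.symm hk), zero_mul]
    · intro h
      exact absurd (mem_range.mpr h2) h

theorem sum_if_le {ι : Type*} (code : ι → ℕ) (v : ι → ℕ) (k : ℕ) (l : List ι) :
    (l.map fun e => if code e = k then v e else 0).sum ≤ (l.map v).sum := by
  induction l with
  | nil => simp
  | cons e l ih =>
    simp only [List.map_cons, List.sum_cons]
    split_ifs <;> omega

theorem cast_sum_if {ι : Type*} (code : ι → ℕ) (v : ι → ℕ) (k : ℕ) (l : List ι) :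
    (((l.map fun e => if code e = k then v e else 0).sum : ℕ) : ℤ) =
      (l.map fun e => if code e = k then (v e : ℤ) else 0).sum := by
  induction l with
  | nil => simp
  | cons e l ih =>
    simp only [List.map_cons, List.sum_cons]
    push_cast [← ih]
    split_ifs <;> simp

theorem packed_zero {ι : Type*} (l : List ι) (code v : ι → ℕ) (C w : ℕ) (M : ℕ → ℤ)
    (h : (l.map fun e => v e * 2 ^ (w * code e)).sum = (l.map fun e => C * 2 ^ (w * code e)).sum)
    (hv : (l.map v).sum < 2 ^ w) (hC : (l.map fun _ => C).sum < 2 ^ w) :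
    (l.map fun e => ((v e : ℤ) - C) * M (code e)).sum = 0 := by
  obtain ⟨n, hn⟩ : ∃ n, ∀ e ∈ l, code e < n := by
    refine ⟨(l.map code).sum + 1, fun e he => ?_⟩
    exact Nat.lt_succ_of_le (List.single_le_sum (fun _ _ => Nat.zero_le _) _
      (List.mem_map_of_mem he))
  set U : ℕ → ℕ := fun k => (l.map fun e => if code e = k then v e else 0).sum with hU
  set V : ℕ → ℕ := fun k => (l.map fun e => if code e = k then C else 0).sum with hV
  have hU' : ∀ k, U k < 2 ^ w := fun k => (sum_if_le code v k l).trans_lt hv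
  have hV' : ∀ k, V k < 2 ^ w := fun k => (sum_if_le code (fun _ => C) k l).trans_lt hC
  have h1 : ∀ v' : ι → ℕ, ((∑ k ∈ range n, (l.map fun e => if code e = k then v' e else 0).sum *
      (2 ^ w) ^ k : ℕ) : ℤ) = (((l.map fun e => v' e * 2 ^ (w * code e)).sum : ℕ) : ℤ) := by
    intro v'
    have h0 := sum_fib code (fun e => (v' e : ℤ)) (fun k => ((2 : ℤ) ^ w) ^ k) n l hn
    rw [Nat.cast_sum, Nat.cast_list_sum, List.map_map]
    simp only [Nat.cast_mul, cast_sum_if, Nat.cast_pow, Nat.cast_ofNat]
    rw [h0]
    congr 1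
    apply List.map_congr_left
    intro e _
    simp [pow_mul]
  have h2 : ∀ k < n, U k = V k := by
    apply digits_unique (2 ^ w) (by positivity) n U V hU' hV'
    have a1 := h1 v
    have a2 := h1 fun _ => C
    have a3 : (((l.map fun e => v e * 2 ^ (w * code e)).sum : ℕ) : ℤ) =
      (((l.map fun e => C * 2 ^ (w * code e)).sum : ℕ) : ℤ) := by rw [h]
    rw [← a1, ← a2] at a3
    exact_mod_cast a3
  have h3 := sum_fib code (fun e => (v e : ℤ)) M n l hn
  have h4 := sum_fib code (fun _ => (C : ℤ)) M n l hn
  have h5 : (l.map fun e => ((v e : ℤ) - C) * M (code e)).sum =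
      (l.map fun e => (v e : ℤ) * M (code e)).sum - (l.map fun e => (C : ℤ) * M (code e)).sum := by
    clear h h1 h2 h3 h4 hU' hV' hU hV hv hC hn
    induction l with
    | nil => simp
    | cons e l ih => simp only [List.map_cons, List.sum_cons, ih]; ring
  rw [h5, ← h3, ← h4, ← sum_sub_distrib]
  refine sum_eq_zero fun k hk => ?_
  have h6 := h2 k (mem_range.mp hk)
  have h7 : ((U k : ℕ) : ℤ) = V k := by rw [h6]
  rw [hU, hV] at h7
  simp only [cast_sum_if] at h7
  rw [h7, sub_self]

end packed

end Helper681
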