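import Pool.Agent.Helper681_win.Sound

namespace Helper681

open Finset

/-- number of labels used before `i` -/
def nbs (f : ℕ → ℕ) : ℕ → ℕ
  | 0 => 0
  | i + 1 => if f i = nbs f i then nbs f i + 1 else nbs f i

/-- packed labels -/
def labs (f : ℕ → ℕ) : ℕ → ℕ
  | 0 => 0
  | i + 1 => labs f i + (f i) <<< (4 * i)

/-- how many earlier points have the label of `i` -/
def cc (f : ℕ → ℕ) (i : ℕ) : ℕ := ∑ a ∈ range i, if f a = f i then 1 else 0

def WW (lin : ℕ) (row : ℕ → ℕ → ℕ) (f : ℕ → ℕ) : ℕ → ℕ
  | 0 => lin
  | i + 1 => (WW lin row f i) >>> (20 * i) + ∑ a ∈ range i, if f a = f i then row i a else 0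

def nn (f : ℕ → ℕ) : ℕ → ℕ
  | 0 => 0
  | i + 1 => nn f i + cc f i

def ac (lin : ℕ) (row : ℕ → ℕ → ℕ) (f : ℕ → ℕ) : ℕ → ℕ
  | 0 => 0
  | i + 1 => ac lin row f i +
      ∑ a ∈ range i, if f a = f i then fld (WW lin row f i) a else 0

def of (U C : ℕ) (f : ℕ → ℕ) : ℕ → ℕ
  | 0 => 0
  | i + 1 => of U C f i + cc f i * (U + C * nn f i)

/-- data of level `i` -/
def datF (row : ℕ → ℕ → ℕ) (pats : ℕ → List (ℕ × ℕ × ℕ)) (i : ℕ) :
    List (ℕ × ℕ × ℕ) × List (ℕ × ℕ × ℕ) :=
  (pats i, (List.range i).map fun a => (4 * a, 20 * a, row i a))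

theorem sum_map_range (g : ℕ → ℕ) (n : ℕ) :
    ((List.range n).map g).sum = ∑ a ∈ range n, g a := by
  induction n with
  | zero => rfl
  | succ n ih => rw [List.range_succ, List.map_append, List.sum_append, ih, sum_range_succ]; simp

theorem labs_lt (f : ℕ → ℕ) (i : ℕ) (hf : ∀ k < i, f k < 16) : labs f i < 2 ^ (4 * i) := by
  induction i with
  | zero => simp [labs]
  | succ i ih =>
    have h1 := ih fun k hk => hf k (by omega)
    have h2 := hf i (by omega)
    rw [labs, Nat.shiftLeft_eq, show 4 * (i + 1) = 4 * i + 4 by ring, pow_add]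
    have : f i * 2 ^ (4 * i) ≤ 15 * 2 ^ (4 * i) := Nat.mul_le_mul_right _ (by omega)
    omega

theorem lbl_labs (f : ℕ → ℕ) (i : ℕ) (hf : ∀ k < i, f k < 16) (a : ℕ) (ha : a < i) :
    lbl (labs f i) (4 * a) = f a := by
  induction i with
  | zero => omega
  | succ i ih =>
    have h1 := labs_lt f i fun k hk => hf k (by omega)
    rcases Nat.lt_succ_iff_lt_or_eq.mp ha with h | h
    · have h3 := ih (fun k hk => hf k (by omega)) h
      unfold lbl at h3 ⊢
      rw [Nat.shiftRight_eq_div_pow] at h3 ⊢
      rw [labs, Nat.shiftLeft_eq]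
      obtain ⟨e, rfl⟩ : ∃ e, i = a + 1 + e := ⟨i - (a + 1), by omega⟩
      have e2 : f (a + 1 + e) * 2 ^ (4 * (a + 1 + e)) =
          (16 * (f (a + 1 + e) * 2 ^ (4 * e))) * 2 ^ (4 * a) := by
        rw [show 4 * (a + 1 + e) = 4 * a + 4 + 4 * e by ring, pow_add, pow_add]; ring
      rw [e2, Nat.add_mul_div_right _ _ (by positivity), Nat.add_mul_mod_self_left, h3]
    · subst h
      unfold lbl
      rw [Nat.shiftRight_eq_div_pow, labs, Nat.shiftLeft_eq,
        Nat.add_mul_div_right _ _ (by positivity), Nat.div_eq_of_lt h1, Nat.zero_add,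
        Nat.mod_eq_of_lt (hf a (by omega))]

theorem lt_nbs (f : ℕ → ℕ) (i : ℕ) (hf : ∀ k < i, f k ≤ nbs f k) : ∀ a < i, f a < nbs f i := by
  induction i with
  | zero => intro a ha; omega
  | succ i ih =>
    intro a ha
    have h1 := ih (fun k hk => hf k (by omega))
    have h2 := hf i (by omega)
    rw [nbs]
    rcases Nat.lt_succ_iff_lt_or_eq.mp ha with h | h
    · have := h1 a h
      split_ifs <;> omega
    · subst h
      split_ifs <;> omega

section

variable (U C lin : ℕ) (row : ℕ → ℕ → ℕ) (pats : ℕ → List (ℕ × ℕ × ℕ)) (f : ℕ → ℕ)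

theorem sA_dat (i w : ℕ) (hf : ∀ k < i, f k < 16) :
    sA (labs f i) w (f i) (datF row pats i).2 =
      ∑ a ∈ range i, if f a = f i then fld w a else 0 := by
  unfold sA datF
  rw [List.map_map, sum_map_range]
  refine sum_congr rfl fun a ha => ?_
  have := lbl_labs f i hf a (mem_range.mp ha)
  simp only [Function.comp, this, fld]

theorem sR_dat (i : ℕ) (hf : ∀ k < i, f k < 16) :
    sR (labs f i) (f i) (datF row pats i).2 =
      ∑ a ∈ range i, if f a = f i then row i a else 0 := by
  unfold sR datF
  rw [List.map_map, sum_map_range]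
  refine sum_congr rfl fun a ha => ?_
  have := lbl_labs f i hf a (mem_range.mp ha)
  simp only [Function.comp, this]

theorem sC_dat (i : ℕ) (hf : ∀ k < i, f k < 16) :
    sC (labs f i) (f i) (datF row pats i).2 = cc f i := by
  unfold sC datF cc
  rw [List.map_map, sum_map_range]
  refine sum_congr rfl fun a ha => ?_
  have := lbl_labs f i hf a (mem_range.mp ha)
  simp only [Function.comp, this]

theorem check_spec (base : ℕ → ℕ → ℕ → ℕ → ℕ → ℕ → ℕ → Bool) :
    ∀ (m i : ℕ), (∀ k < i + m, f k < 16) → (∀ k < i + m, f k ≤ nbs f k) →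
      (∀ j, i ≤ j → j < i + m → okAt (labs f j) (f j) (pats j)) →
      check U C base ((List.range' i m).map (datF row pats)) i (labs f i) (nbs f i)
        (WW lin row f i) (nn f i) (ac lin row f i) (of U C f i) = true →
      base (i + m) (labs f (i + m)) (nbs f (i + m)) (WW lin row f (i + m)) (nn f (i + m))
        (ac lin row f (i + m)) (of U C f (i + m)) = true := by
  intro m
  induction m with
  | zero => intro i _ _ _ h; exact h
  | succ m ih =>
    intro i h16 hcan hok h
    rw [List.range'_succ, List.map_cons] at h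
    have h1 : withMask (labs f i) (nbs f i) (datF row pats i).1 (fun m' =>
        forceN (Nat.shiftRight (WW lin row f i) (Nat.mul 20 i)) fun W1 =>
        forceN (Nat.add U (Nat.mul C (nn f i))) fun o1 =>
        loop (fun t =>
              Bool.rec (motive := fun _ => Bool)
                (sel (labs f i) (WW lin row f i) t (fun acc' W' c =>
                  forceN (Nat.add (of U C f i) (Nat.mul c o1)) fun off' =>
                  forceN (Nat.add (nn f i) c) fun n' =>
                  forceN (Nat.add (labs f i) (Nat.shiftLeft t (Nat.mul 4 i))) fun lab' =>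
                  (check U C base ((List.range' (i + 1) m).map (datF row pats))
                    (Nat.succ i) lab' (nbs f i) W' n' acc' off')) (datF row pats i).2
                    (ac lin row f i) W1 0)
                (forceN (Nat.add (labs f i) (Nat.shiftLeft t (Nat.mul 4 i))) fun lab' =>
                 forceN (Nat.succ (nbs f i)) fun nb' =>
                  check U C base ((List.range' (i + 1) m).map (datF row pats))
                  (Nat.succ i) lab' nb' W1 (nn f i) (ac lin row f i) (of U C f i))
                (Nat.beq t (nbs f i))) m' (Nat.succ (nbs f i))) = true := h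
    obtain ⟨m', hm', h2⟩ := withMask_spec _ _ _ _ (f i) h1 (hcan i (by omega))
      (hok i le_rfl (by omega))
    rw [forceN_eq, forceN_eq] at h2
    have h3 := loop_spec _ _ _ h2 (f i) (Nat.lt_succ_of_le (hcan i (by omega))) hm'
    have h16' : ∀ k < i, f k < 16 := fun k hk => h16 k (by omega)
    have key : check U C base ((List.range' (i + 1) m).map (datF row pats)) (i + 1)
        (labs f (i + 1)) (nbs f (i + 1)) (WW lin row f (i + 1)) (nn f (i + 1))
        (ac lin row f (i + 1)) (of U C f (i + 1)) = true := by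
      rcases beq_cases (f i) (nbs f i) with ⟨hb, hb'⟩ | ⟨hb, hb'⟩
      · rw [hb] at h3
        simp only [forceN_eq] at h3
        have hz : ∀ a ∈ range i, ¬ (f a = f i) := by
          intro a ha h
          have := lt_nbs f i (fun k hk => hcan k (by omega)) a (mem_range.mp ha)
          omega
        have e1 : nbs f (i + 1) = nbs f i + 1 := by rw [nbs, if_pos hb']
        have e2 : WW lin row f (i + 1) = (WW lin row f i) >>> (20 * i) := by
          rw [WW, sum_eq_zero (fun a ha => by rw [if_neg (hz a ha)]), add_zero]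
        have e0 : cc f i = 0 := by
          rw [cc, sum_eq_zero (fun a ha => by rw [if_neg (hz a ha)])]
        have e3 : nn f (i + 1) = nn f i := by rw [nn, e0, add_zero]
        have e4 : ac lin row f (i + 1) = ac lin row f i := by
          rw [ac, sum_eq_zero (fun a ha => by rw [if_neg (hz a ha)]), add_zero]
        have e5 : of U C f (i + 1) = of U C f i := by rw [of, e0, zero_mul, add_zero]
        rw [e1, e2, e3, e4, e5, labs]
        exact h3
      · rw [hb] at h3
        simp only [sel_eq, forceN_eq] at h3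
        rw [sA_dat row pats f i _ h16', sR_dat row pats f i h16', sC_dat row pats f i h16'] at h3
        have e1 : nbs f (i + 1) = nbs f i := by rw [nbs, if_neg hb']
        rw [e1, WW, nn, ac, of, labs]
        rw [zero_add] at h3
        exact h3
    have := ih (i + 1) (fun k hk => h16 k (by omega)) (fun k hk => hcan k (by omega))
      (fun j hj hj' => hok j (by omega) (by omega)) key
    rw [show i + (m + 1) = i + 1 + m by ring]
    exact this

theorem last_spec (B i : ℕ) (h16 : ∀ k < i, f k < 16) (hcan : f i ≤ nbs f i)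
    (hok : okAt (labs f i) (f i) (pats i))
    (h : last B U C (datF row pats i) i (labs f i) (nbs f i)
        (WW lin row f i) (nn f i) (ac lin row f i) (of U C f i) = true) :
    ac lin row f (i + 1) + B ≤ of U C f (i + 1) := by
  obtain ⟨m', hm', h2⟩ := withMask_spec _ _ _ _ (f i) h hcan hok
  rw [forceN_eq] at h2
  have h3 := loop_spec _ _ _ h2 (f i) (Nat.lt_succ_of_le hcan) hm'
  have h4 := selL_eq _ _ _ _ _ _ _ _ _ h3
  rw [sA_dat row pats f i _ h16, sC_dat row pats f i h16, zero_add] at h4
  rw [ac, of]
  exact h4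

theorem split_spec (M : ℕ) (base : ℕ → ℕ → ℕ → ℕ → ℕ → ℕ → ℕ → Bool)
    (i lab nb W n acc off : ℕ)
    (h : split M (lab % M) base i lab nb W n acc off = true) :
    base i lab nb W n acc off = true := by
  have h' : Bool.rec (motive := fun _ => Bool) true (base i lab nb W n acc off)
    (Nat.beq (lab % M) (lab % M)) = true := h
  rw [Nat.beq_refl] at h'
  exact h'

end

end Helper681
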